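import Pool.Agent.H37.CTN.Stmts
import Pool.Agent.H1.CNZ.TWI

/-!
# Row N41 of the board `ctn`: the orders of the roots at a place at infinity
-/

set_option autoImplicit false

namespace Pool.CND

open Finset

namespace N41

section places

variable {k L : Type} [Field k] [Field L] [Algebra k L] (P : Place k L)

/-- three nonzero terms with sum zero: the least order is taken twice -/
theorem no_min {a b c : L} (ha : a ≠ 0) (h : a + b + c = 0) :
    ¬ (P.Ge b (P.ord a + 1) ∧ P.Ge c (P.ord a + 1)) := by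
  rintro ⟨h1, h2⟩
  have h3 : P.Ge (b + c) (P.ord a + 1) := P.ge_add h1 h2
  have h4 := (P.ord_add_of_lt ha h3).1
  exact h4 (by rw [← add_assoc]; exact h)

theorem ge_pow {x : L} {n : ℤ} (h : P.Ge x n) {j : ℕ} (hj : j ≠ 0) : P.Ge (x ^ j) (j * n) := by
  by_cases hx : x = 0
  · left
    rw [hx, zero_pow hj]
  · right
    rw [P.ord_pow hx]
    exact mul_le_mul_of_nonneg_left (h.resolve_left hx) (by positivity)

theorem ge_cmul {x : L} {n : ℤ} (a : k) (h : P.Ge x n) : P.Ge (algebraMap k L a * x) n := by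
  have := P.ge_mul (P.ge_const a) h
  rwa [zero_add] at this

/-- the coefficient of the leading term -/
theorem coef0 {a : k} {y : L} (hy : y ≠ 0) (h : P.Ge (algebraMap k L a * y) (P.ord y + 1)) :
    a = 0 := by
  by_contra ha
  have hL : algebraMap k L a ≠ 0 := by rwa [Ne, map_eq_zero]
  rcases h with h | h
  · exact (mul_ne_zero hL hy) h
  · rw [P.ord_mul _ _ hL hy, P.ord_const a ha] at h
    omega

theorem coef1 {a : k} (h : P.Ge (algebraMap k L a) 1) : a = 0 := by
  refine coef0 P (a := a) (y := 1) one_ne_zero ?_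
  rw [mul_one, P.ord_one]
  exact h

/-- `x ^ (q ^ r) + ν x` -/
noncomputable def N (q r : ℕ) (ν : k) (x : L) : L := x ^ q ^ r + algebraMap k L ν * x

/-- the hypotheses -/
structure Dat (k L : Type) [Field k] [Field L] [Algebra k L] (p f q r m : ℕ) (ν : k) : Prop where
  hp : p.Prime
  ch : CharP L p
  chk : CharP k p
  hq : q = p ^ f
  hq2 : 2 ≤ q
  hm : 1 ≤ m
  nu0 : ν ≠ 0
  nu1 : r = 0 → 1 + ν ≠ 0

variable {p f q r m : ℕ} {ν : k}

theorem Dat.frob (h : Dat k L p f q r m ν) (j : ℕ) (x y : L) :
    (x + y) ^ q ^ j = x ^ q ^ j + y ^ q ^ j := by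
  have := h.ch
  have : Fact p.Prime := ⟨h.hp⟩
  have e : q ^ j = p ^ (f * j) := by rw [h.hq, pow_mul]
  rw [e]
  exact add_pow_expChar_pow x y p _

theorem Dat.frobs (h : Dat k L p f q r m ν) (j : ℕ) (x y : L) :
    (x - y) ^ q ^ j = x ^ q ^ j - y ^ q ^ j := by
  have h1 := h.frob j (x - y) y
  rw [sub_add_cancel] at h1
  rw [h1, add_sub_cancel_right]

theorem Dat.frobq (h : Dat k L p f q r m ν) (x y : L) :
    (x - y) ^ q = x ^ q - y ^ q := by
  have := h.frobs 1 x y
  rwa [pow_one] at this

theorem Dat.N_add (h : Dat k L p f q r m ν) (x y : L) : N q r ν (x + y) = N q r ν x + N q r ν y := by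
  unfold N
  rw [h.frob]
  ring

theorem Dat.two_le (h : Dat k L p f q r m ν) {j : ℕ} (hj : j ≠ 0) : (2 : ℤ) ≤ (q : ℤ) ^ j := by
  have h1 : 2 ≤ q ^ j := h.hq2.trans (Nat.le_self_pow hj q)
  exact_mod_cast h1

theorem Dat.one_le (h : Dat k L p f q r m ν) (j : ℕ) : (1 : ℤ) ≤ (q : ℤ) ^ j := by
  have h1 : 1 ≤ q ^ j := Nat.one_le_pow _ _ (by have := h.hq2; omega)
  exact_mod_cast h1

/-- `N` at elements of negative order -/
theorem Dat.N_neg (h : Dat k L p f q r m ν) {x : L} (hx : x ≠ 0) (ho : P.ord x < 0) :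
    N q r ν x ≠ 0 ∧ P.ord (N q r ν x) = (q : ℤ) ^ r * P.ord x := by
  rcases Nat.eq_zero_or_pos r with hr | hr
  · have e : N q r ν x = algebraMap k L (1 + ν) * x := by
      unfold N
      rw [hr, pow_zero, pow_one, map_add, map_one]
      ring
    have hL : algebraMap k L (1 + ν) ≠ 0 := by
      rw [Ne, map_eq_zero]
      exact h.nu1 hr
    rw [e]
    refine ⟨mul_ne_zero hL hx, ?_⟩
    rw [P.ord_mul _ _ hL hx, P.ord_const _ (h.nu1 hr), hr]
    simp
  · have h2 := h.two_le (j := r) (by omega)
    have h3 : P.ord (x ^ q ^ r) = (q : ℤ) ^ r * P.ord x := by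
      rw [P.ord_pow hx]
      push_cast
      ring
    have h4 : P.Ge (algebraMap k L ν * x) (P.ord (x ^ q ^ r) + 1) := by
      refine P.ge_mono (ge_cmul P ν (P.ge_ord x)) ?_
      rw [h3]
      nlinarith
    have h5 := P.ord_add_of_lt (pow_ne_zero _ hx) h4
    exact ⟨h5.1, h5.2.trans h3⟩

/-- `N` at elements of positive order -/
theorem Dat.N_pos (h : Dat k L p f q r m ν) {x : L} (hx : x ≠ 0) (ho : 0 < P.ord x) :
    N q r ν x ≠ 0 ∧ P.ord (N q r ν x) = P.ord x := by
  rcases Nat.eq_zero_or_pos r with hr | hr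
  · have e : N q r ν x = algebraMap k L (1 + ν) * x := by
      unfold N
      rw [hr, pow_zero, pow_one, map_add, map_one]
      ring
    have hL : algebraMap k L (1 + ν) ≠ 0 := by
      rw [Ne, map_eq_zero]
      exact h.nu1 hr
    rw [e]
    refine ⟨mul_ne_zero hL hx, ?_⟩
    rw [P.ord_mul _ _ hL hx, P.ord_const _ (h.nu1 hr)]
    simp
  · have h2 := h.two_le (j := r) (by omega)
    have h3 : P.ord (x ^ q ^ r) = (q : ℤ) ^ r * P.ord x := by
      rw [P.ord_pow hx]
      push_cast
      ring
    have hL : algebraMap k L ν ≠ 0 := by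
      rw [Ne, map_eq_zero]
      exact h.nu0
    have h6 : P.ord (algebraMap k L ν * x) = P.ord x := by
      rw [P.ord_mul _ _ hL hx, P.ord_const _ h.nu0]
      simp
    have h4 : P.Ge (x ^ q ^ r) (P.ord (algebraMap k L ν * x) + 1) := by
      right
      rw [h6, h3]
      nlinarith
    have h5 := P.ord_add_of_lt (mul_ne_zero hL hx) h4
    have e : N q r ν x = algebraMap k L ν * x + x ^ q ^ r := by
      unfold N
      ring
    rw [e]
    exact ⟨h5.1, h5.2.trans h6⟩

/-- orders of the roots -/
theorem Dat.ord_root (h : Dat k L p f q r m ν) {t x : L} (ht0 : t ≠ 0) (ht : P.ord t < 0)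
    (hx : x ≠ 0) (hrel : x ^ q ^ (r + m + 1) + t * N q r ν x ^ q + x = 0) :
    (P.ord x < 0 → ((q : ℤ) ^ (r + m + 1) - (q : ℤ) ^ (r + 1)) * P.ord x = P.ord t) ∧
    (0 < P.ord x → ((q : ℤ) - 1) * P.ord x = -P.ord t) := by
  have hA : x ^ q ^ (r + m + 1) ≠ 0 := pow_ne_zero _ hx
  have oA : P.ord (x ^ q ^ (r + m + 1)) = (q : ℤ) ^ (r + m + 1) * P.ord x := by
    rw [P.ord_pow hx]
    push_cast
    ring
  have hq3 := h.two_le (j := r + m + 1) (by omega)
  have hN : ∀ {o : ℤ}, N q r ν x ≠ 0 → P.ord (N q r ν x) = o →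
      t * N q r ν x ^ q ≠ 0 ∧ P.ord (t * N q r ν x ^ q) = P.ord t + q * o := by
    intro o h1 h2
    refine ⟨mul_ne_zero ht0 (pow_ne_zero _ h1), ?_⟩
    rw [P.ord_mul _ _ ht0 (pow_ne_zero _ h1), P.ord_pow h1, h2]
  have hqq : (q : ℤ) ^ (r + 1) = q * (q : ℤ) ^ r := by ring
  constructor
  · intro ho
    obtain ⟨b1, b2⟩ := h.N_neg P hx ho
    obtain ⟨hB, oB⟩ := hN b1 b2
    have n1 := no_min P hA hrel
    have n2 := no_min P hB (b := x ^ q ^ (r + m + 1)) (c := x) (by linear_combination hrel)
    rw [P.ge_iff hB, P.ge_iff hx, oA, oB] at n1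
    rw [P.ge_iff hA, P.ge_iff hx, oA, oB] at n2
    have h1 : (q : ℤ) ^ (r + m + 1) * P.ord x < P.ord x := by nlinarith
    have h2 : P.ord t + q * ((q : ℤ) ^ r * P.ord x) = (q : ℤ) ^ (r + m + 1) * P.ord x := by
      by_contra hne
      rcases lt_or_gt_of_ne hne with h3 | h3
      · exact n2 ⟨by omega, by omega⟩
      · exact n1 ⟨by omega, by omega⟩
    rw [hqq]
    linear_combination -h2
  · intro ho
    obtain ⟨b1, b2⟩ := h.N_pos P hx ho
    obtain ⟨hB, oB⟩ := hN b1 b2
    have n2 := no_min P hB (b := x ^ q ^ (r + m + 1)) (c := x) (by linear_combination hrel)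
    have n3 := no_min P hx (b := x ^ q ^ (r + m + 1)) (c := t * N q r ν x ^ q)
      (by linear_combination hrel)
    rw [P.ge_iff hA, P.ge_iff hx, oA, oB] at n2
    rw [P.ge_iff hA, P.ge_iff hB, oA, oB] at n3
    have h1 : P.ord x < (q : ℤ) ^ (r + m + 1) * P.ord x := by nlinarith
    have h2 : P.ord t + q * P.ord x = P.ord x := by
      by_contra hne
      rcases lt_or_gt_of_ne hne with h3 | h3
      · exact n2 ⟨by omega, by omega⟩
      · exact n3 ⟨by omega, by omega⟩
    linear_combination h2

/-- residues of the roots of order `≥ 0` -/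
theorem Dat.res_mid (h : Dat k L p f q r m ν) {t x : L} (ht0 : t ≠ 0) (ht : P.ord t < 0)
    (hrel : x ^ q ^ (r + m + 1) + t * N q r ν x ^ q + x = 0) (hx : P.Ge x 0) (a : k)
    (ha : P.Ge (x - algebraMap k L a) 1) : a ^ q ^ r + ν * a = 0 := by
  have hq0 : q ≠ 0 := by have := h.hq2; omega
  have hqr0 : ∀ j, q ^ j ≠ 0 := fun j => pow_ne_zero _ hq0
  have h1 : P.Ge (N q r ν x) 1 := by
    by_cases hN : N q r ν x = 0
    · exact Or.inl hN
    right
    have h2 : t * N q r ν x ^ q = -(x ^ q ^ (r + m + 1) + x) := by linear_combination hrel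
    have h3 : P.Ge (t * N q r ν x ^ q) 0 := by
      rw [h2]
      refine P.ge_neg (P.ge_add ?_ hx)
      have := ge_pow P hx (hqr0 (r + m + 1))
      rwa [mul_zero] at this
    have h4 := h3.resolve_left (mul_ne_zero ht0 (pow_ne_zero _ hN))
    rw [P.ord_mul _ _ ht0 (pow_ne_zero _ hN), P.ord_pow hN] at h4
    by_contra hc
    rw [not_le] at hc
    have : (q : ℤ) * P.ord (N q r ν x) ≤ 0 :=
      mul_nonpos_of_nonneg_of_nonpos (by positivity) (by omega)
    omega
  have h2 : N q r ν x = N q r ν (algebraMap k L a) + N q r ν (x - algebraMap k L a) := by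
    rw [← h.N_add]
    congr 1
    ring
  have h3 : P.Ge (N q r ν (x - algebraMap k L a)) 1 := by
    unfold N
    refine P.ge_add ?_ (ge_cmul P ν ha)
    refine P.ge_mono (ge_pow P ha (hqr0 r)) ?_
    have := h.one_le r
    push_cast
    omega
  apply coef1 P
  have h4 : algebraMap k L (a ^ q ^ r + ν * a) = N q r ν x - N q r ν (x - algebraMap k L a) := by
    rw [h2]
    unfold N
    rw [map_add, map_pow, map_mul]
    ring
  rw [h4]
  exact P.ge_sub h1 h3

/-- quotients of the roots of negative order -/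
theorem Dat.res_top (h : Dat k L p f q r m ν) {t x y : L} (ht0 : t ≠ 0) (ht : P.ord t < 0)
    (hx : x ^ q ^ (r + m + 1) + t * N q r ν x ^ q + x = 0)
    (hy : y ^ q ^ (r + m + 1) + t * N q r ν y ^ q + y = 0) (hy0 : y ≠ 0) (ho : P.ord y < 0)
    (a : k) (ha : P.Ge (x / y - algebraMap k L a) 1) : a ^ q ^ m + (-1) * a = 0 := by
  have hq0 : q ≠ 0 := by have := h.hq2; omega
  have hqr0 : ∀ j, q ^ j ≠ 0 := fun j => pow_ne_zero _ hq0
  have hoy := (h.ord_root P ht0 ht hy0 hy).1 ho
  set o := P.ord y with hodef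
  set Q : ℤ := (q : ℤ) ^ (r + m + 1) with hQ
  have hQ2 : 2 ≤ Q := h.two_le (by omega)
  set z : L := x - algebraMap k L a * y with hz
  have hzge : P.Ge z (o + 1) := by
    have h1 : z = (x / y - algebraMap k L a) * y := by
      rw [hz]
      field_simp
    rw [h1, add_comm]
    exact P.ge_mul ha (P.ge_ord y)
  have hxz : x = algebraMap k L a * y + z := by
    rw [hz]
    ring
  have hxge : P.Ge x o := by
    rw [hxz]
    exact P.ge_add (ge_cmul P a (P.ge_ord y)) (P.ge_mono hzge (by omega))
  -- `N x - a ^ (q ^ r) N y`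
  have hN : P.Ge (N q r ν x - algebraMap k L a ^ q ^ r * N q r ν y) ((q : ℤ) ^ r * o + 1) := by
    have e : N q r ν x - algebraMap k L a ^ q ^ r * N q r ν y =
        algebraMap k L (ν * (a - a ^ q ^ r)) * y + N q r ν z := by
      rw [hxz, h.N_add]
      unfold N
      simp only [map_mul, map_sub, map_pow, mul_pow]
      ring
    rw [e]
    refine P.ge_add ?_ ?_
    · rcases Nat.eq_zero_or_pos r with hr | hr
      · left
        rw [hr]
        simp
      · refine P.ge_mono (ge_cmul P _ (P.ge_ord y)) ?_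
        have := h.two_le (j := r) (by omega)
        nlinarith
    · unfold N
      have h1 := h.one_le r
      refine P.ge_add (P.ge_mono (ge_pow P hzge (hqr0 r)) ?_)
        (P.ge_mono (ge_cmul P ν hzge) ?_)
      · push_cast
        nlinarith
      · nlinarith
  obtain ⟨b1, b2⟩ := h.N_neg P hy0 ho
  have hYne : t * N q r ν y ^ q ≠ 0 := mul_ne_zero ht0 (pow_ne_zero _ b1)
  have hYo : P.ord (t * N q r ν y ^ q) = Q * o := by
    rw [P.ord_mul _ _ ht0 (pow_ne_zero _ b1), P.ord_pow b1, b2, ← hoy, ← hodef]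
    ring
  -- the equation
  have key : algebraMap k L (a ^ q ^ (r + m + 1) - a ^ q ^ (r + 1)) * (t * N q r ν y ^ q) =
      z ^ q ^ (r + m + 1) +
        t * (N q r ν x - algebraMap k L a ^ q ^ r * N q r ν y) ^ q + x -
        algebraMap k L (a ^ q ^ (r + m + 1)) * y := by
    have e1 : x ^ q ^ (r + m + 1) =
        algebraMap k L (a ^ q ^ (r + m + 1)) * y ^ q ^ (r + m + 1) + z ^ q ^ (r + m + 1) := by
      conv_lhs => rw [hxz]
      rw [h.frob, mul_pow, map_pow]
    have e2 : (algebraMap k L a ^ q ^ r * N q r ν y) ^ q =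
        algebraMap k L (a ^ q ^ (r + 1)) * N q r ν y ^ q := by
      rw [mul_pow, ← pow_mul, ← pow_succ, map_pow]
    rw [h.frobq, e2, map_sub]
    linear_combination (-1 : L) * hx + algebraMap k L (a ^ q ^ (r + m + 1)) * hy + e1
  have hge : P.Ge (algebraMap k L (a ^ q ^ (r + m + 1) - a ^ q ^ (r + 1)) *
      (t * N q r ν y ^ q)) (P.ord (t * N q r ν y ^ q) + 1) := by
    rw [key, hYo]
    refine P.ge_sub (P.ge_add (P.ge_add ?_ ?_) ?_) ?_
    · refine P.ge_mono (ge_pow P hzge (hqr0 _)) ?_
      push_cast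
      rw [← hQ]
      nlinarith
    · refine P.ge_mono (P.ge_mul (P.ge_ord t) (ge_pow P hN hq0)) ?_
      have h1 := h.hq2
      have h2 : (2 : ℤ) ≤ q := by exact_mod_cast h1
      have h3 : (q : ℤ) ^ (r + 1) = q * (q : ℤ) ^ r := by ring
      rw [← hoy, h3]
      nlinarith
    · refine P.ge_mono hxge ?_
      nlinarith
    · refine P.ge_mono (ge_cmul P _ (P.ge_ord y)) ?_
      nlinarith
  have h0 := coef0 P hYne hge
  -- Frobenius is injective
  have h1 : (a ^ q ^ m) ^ q ^ (r + 1) = a ^ q ^ (r + 1) := by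
    rw [← pow_mul, ← pow_add, show m + (r + 1) = r + m + 1 by ring]
    exact sub_eq_zero.1 h0
  have h2 : algebraMap k L (a ^ q ^ m) = algebraMap k L a := by
    have h3 : (algebraMap k L (a ^ q ^ m) - algebraMap k L a) ^ q ^ (r + 1) = 0 := by
      rw [h.frobs, ← map_pow, ← map_pow, h1, sub_self]
    exact sub_eq_zero.1 (pow_eq_zero_iff (hqr0 (r + 1)) |>.1 h3)
  have h3 := (algebraMap k L).injective h2
  rw [h3]
  ring

/-- quotients of the roots of positive order -/
theorem Dat.res_bot (h : Dat k L p f q r m ν) {t x y : L} (ht0 : t ≠ 0) (ht : P.ord t < 0)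
    (hx : x ^ q ^ (r + m + 1) + t * N q r ν x ^ q + x = 0)
    (hy : y ^ q ^ (r + m + 1) + t * N q r ν y ^ q + y = 0) (hy0 : y ≠ 0) (ho : 0 < P.ord y)
    (a : k) (ha : P.Ge (x / y - algebraMap k L a) 1) : a ^ q ^ 1 + (-1) * a = 0 := by
  have hq0 : q ≠ 0 := by have := h.hq2; omega
  have hqr0 : ∀ j, q ^ j ≠ 0 := fun j => pow_ne_zero _ hq0
  have hoy := (h.ord_root P ht0 ht hy0 hy).2 ho
  set o := P.ord y with hodef
  set Q : ℤ := (q : ℤ) ^ (r + m + 1) with hQ
  have hQ2 : 2 ≤ Q := h.two_le (by omega)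
  set z : L := x - algebraMap k L a * y with hz
  have hzge : P.Ge z (o + 1) := by
    have h1 : z = (x / y - algebraMap k L a) * y := by
      rw [hz]
      field_simp
    rw [h1, add_comm]
    exact P.ge_mul ha (P.ge_ord y)
  have hxz : x = algebraMap k L a * y + z := by
    rw [hz]
    ring
  have hxge : P.Ge x o := by
    rw [hxz]
    exact P.ge_add (ge_cmul P a (P.ge_ord y)) (P.ge_mono hzge (by omega))
  have hN : P.Ge (N q r ν x - algebraMap k L a * N q r ν y) (o + 1) := by
    have e : N q r ν x - algebraMap k L a * N q r ν y =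
        algebraMap k L (a ^ q ^ r - a) * y ^ q ^ r + N q r ν z := by
      rw [hxz, h.N_add]
      unfold N
      simp only [map_sub, map_pow, mul_pow]
      ring
    rw [e]
    refine P.ge_add ?_ ?_
    · rcases Nat.eq_zero_or_pos r with hr | hr
      · left
        rw [hr]
        simp
      · refine P.ge_mono (ge_cmul P _ (ge_pow P (P.ge_ord y) (hqr0 r))) ?_
        have := h.two_le (j := r) (by omega)
        push_cast
        nlinarith
    · unfold N
      have h1 := h.one_le r
      refine P.ge_add (P.ge_mono (ge_pow P hzge (hqr0 r)) ?_) (ge_cmul P ν hzge)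
      push_cast
      nlinarith
  have key : algebraMap k L (a - a ^ q) * y =
      -(z + (x ^ q ^ (r + m + 1) - algebraMap k L (a ^ q) * y ^ q ^ (r + m + 1)) +
        t * (N q r ν x - algebraMap k L a * N q r ν y) ^ q) := by
    rw [h.frobq, mul_pow, map_sub, map_pow, hz]
    linear_combination hx - algebraMap k L a ^ q * hy
  have hge : P.Ge (algebraMap k L (a - a ^ q) * y) (P.ord y + 1) := by
    rw [key, ← hodef]
    refine P.ge_neg (P.ge_add (P.ge_add hzge (P.ge_sub ?_ ?_)) ?_)
    · refine P.ge_mono (ge_pow P hxge (hqr0 _)) ?_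
      push_cast
      rw [← hQ]
      nlinarith
    · refine P.ge_mono (ge_cmul P _ (ge_pow P (P.ge_ord y) (hqr0 _))) ?_
      push_cast
      rw [← hQ, ← hodef]
      nlinarith
    · refine P.ge_mono (P.ge_mul (P.ge_ord t) (ge_pow P hN hq0)) ?_
      have h1 := h.hq2
      have h2 : (2 : ℤ) ≤ q := by exact_mod_cast h1
      nlinarith
  have h0 := coef0 P hy0 hge
  rw [pow_one]
  linear_combination -h0

/-- few roots -/
theorem rootset (D : ℕ) (hD : 1 ≤ D) (ν : k) (h : D = 1 → 1 + ν ≠ 0) :
    ∃ S : Finset k, S.card ≤ D ∧ ∀ a, a ^ D + ν * a = 0 → a ∈ S := by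
  classical
  set Q : Polynomial k := Polynomial.X ^ D + Polynomial.C ν * Polynomial.X with hQ
  have hQ0 : Q ≠ 0 := by
    intro h0
    have h1 : Q.coeff D = 0 := by rw [h0, Polynomial.coeff_zero]
    rw [hQ, Polynomial.coeff_add, Polynomial.coeff_X_pow_self, Polynomial.coeff_C_mul,
      Polynomial.coeff_X] at h1
    by_cases hD1 : D = 1
    · rw [if_pos hD1.symm, mul_one] at h1
      exact h hD1 h1
    · rw [if_neg (fun h2 => hD1 h2.symm)] at h1
      simp at h1
  have hdeg : Q.natDegree ≤ D := by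
    rw [hQ]
    refine Polynomial.natDegree_add_le_of_degree_le (Polynomial.natDegree_X_pow_le D) ?_
    exact (Polynomial.natDegree_C_mul_le ν _).trans (Polynomial.natDegree_X_le.trans hD)
  refine ⟨Q.roots.toFinset, ?_, ?_⟩
  · exact (Multiset.toFinset_card_le _).trans ((Polynomial.card_roots' Q).trans hdeg)
  · intro a ha
    rw [Multiset.mem_toFinset, Polynomial.mem_roots hQ0, Polynomial.IsRoot.def, hQ]
    simpa using ha

end places

section linear

variable {k F L : Type} [Field k] [Field F] [Field L] [Algebra F k] [Algebra k L]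

/-- a step of the filtration -/
theorem fil (P : Place k L) {V : Type} [AddCommGroup V] [Module F V] [FiniteDimensional F V]
    {q : ℕ} (hq2 : 2 ≤ q) (hF : Nat.card F = q) (U K : Submodule F V) (g : V → L)
    (hadd : ∀ c d, g (c + d) = g c + g d) (hsm : ∀ (a : F) c, g (a • c) = cst k F L a * g c)
    (hge : ∀ c ∈ U, P.Ge (g c) 0) (hK : ∀ c ∈ U, P.Ge (g c) 1 → c ∈ K) (S : Finset k) (d : ℕ)
    (hS : S.card ≤ q ^ d)
    (hmem : ∀ c ∈ U, ∀ a, P.Ge (g c - algebraMap k L a) 1 → a ∈ S) :
    Module.finrank F U ≤ Module.finrank F K + d := by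
  classical
  have : Finite F := Nat.finite_of_card_ne_zero (by omega)
  have hres : ∀ c : U, ∃ a : k, P.Ge (g c.1 - algebraMap k L a) 1 := by
    intro c
    by_cases h0 : g c.1 = 0
    · exact ⟨0, Or.inl (by rw [h0, map_zero, sub_zero])⟩
    · obtain ⟨a, ha⟩ := P.residue _ h0 ((hge c.1 c.2).resolve_left h0)
      refine ⟨a, ?_⟩
      rcases ha with ha | ha
      · exact Or.inl (sub_eq_zero.2 ha)
      · exact Or.inr (by omega)
  choose φ hφ using hres
  have huni : ∀ (x : L) (a b : k), P.Ge (x - algebraMap k L a) 1 →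
      P.Ge (x - algebraMap k L b) 1 → a = b := by
    intro x a b h1 h2
    have h3 : a - b = 0 := by
      apply coef1 P
      have : algebraMap k L (a - b) = (x - algebraMap k L b) - (x - algebraMap k L a) := by
        rw [map_sub]
        ring
      rw [this]
      exact P.ge_sub h2 h1
    exact sub_eq_zero.1 h3
  let Φ : U →ₗ[F] k :=
    { toFun := φ
      map_add' := by
        intro c d
        refine huni (g (c + d : U).1) _ _ (hφ _) ?_
        have : g (c + d : U).1 - algebraMap k L (φ c + φ d) =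
            (g c.1 - algebraMap k L (φ c)) + (g d.1 - algebraMap k L (φ d)) := by
          rw [Submodule.coe_add, hadd, map_add]
          ring
        rw [this]
        exact P.ge_add (hφ c) (hφ d)
      map_smul' := by
        intro a c
        refine huni (g (a • c : U).1) _ _ (hφ _) ?_
        have : g (a • c : U).1 - algebraMap k L ((RingHom.id F) a • φ c) =
            algebraMap k L (algebraMap F k a) * (g c.1 - algebraMap k L (φ c)) := by
          rw [Submodule.coe_smul, hsm, RingHom.id_apply, Algebra.smul_def, map_mul]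
          show algebraMap k L (algebraMap F k a) * _ - _ = _
          ring
        rw [this]
        exact ge_cmul P _ (hφ c) }
  have hker : Module.finrank F (LinearMap.ker Φ) ≤ Module.finrank F K := by
    have h1 : (LinearMap.ker Φ).map U.subtype ≤ K := by
      rintro _ ⟨c, hc, rfl⟩
      refine hK c.1 c.2 ?_
      have h2 := hφ c
      have h3 : φ c = 0 := LinearMap.mem_ker.1 hc
      rwa [h3, map_zero, sub_zero] at h2
    have h2 := Submodule.finrank_mono h1
    rwa [Submodule.finrank_map_subtype_eq] at h2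
  have hrange : Module.finrank F (LinearMap.range Φ) ≤ d := by
    have : Finite U := Module.finite_of_finite F
    have : Finite (LinearMap.range Φ) := by
      have := Finite.of_surjective _ Φ.surjective_rangeRestrict
      exact this
    have h1 : Nat.card (LinearMap.range Φ) = q ^ Module.finrank F (LinearMap.range Φ) := by
      rw [← hF]
      exact Module.natCard_eq_pow_finrank
    have h2 : Nat.card (LinearMap.range Φ) ≤ S.card := by
      have h3 : (LinearMap.range Φ : Set k) ⊆ (S : Set k) := by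
        rintro _ ⟨c, rfl⟩
        exact hmem c.1 c.2 _ (hφ c)
      have h4 := Set.ncard_le_ncard h3 S.finite_toSet
      rw [Set.ncard_coe_finset] at h4
      rwa [← Nat.card_coe_set_eq] at h4
    rw [h1] at h2
    exact (Nat.pow_le_pow_iff_right (by omega)).1 (h2.trans hS)
  have := LinearMap.finrank_range_add_finrank_ker Φ
  omega

/-- a family adapted to a filtration -/
theorem build {V : Type} [AddCommGroup V] [Module F V] [FiniteDimensional F V] (n : ℕ)
    (W : ℕ → Submodule F V) (hW : ∀ s < n, s < Module.finrank F (W s)) :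
    ∀ s ≤ n, ∃ v : Fin s → V, LinearIndependent F v ∧ ∀ i, v i ∈ W i.val := by
  intro s
  induction s with
  | zero => exact fun _ => ⟨fun i => i.elim0, linearIndependent_empty_type, fun i => i.elim0⟩
  | succ s ih =>
    intro hs
    obtain ⟨v, hv, hm⟩ := ih (by omega)
    obtain ⟨x, hx, hxs⟩ : ∃ x ∈ W s, x ∉ Submodule.span F (Set.range v) := by
      by_contra hcon
      push Not at hcon
      have h1 : W s ≤ Submodule.span F (Set.range v) := hcon
      have h2 := Submodule.finrank_mono h1
      rw [finrank_span_eq_card hv, Fintype.card_fin] at h2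
      exact absurd (hW s (by omega)) (by omega)
    refine ⟨Fin.snoc v x, linearIndependent_finSnoc.2 ⟨hv, hxs⟩, ?_⟩
    intro i
    refine Fin.lastCases ?_ (fun j => ?_) i
    · rw [Fin.snoc_last]
      exact hx
    · rw [Fin.snoc_castSucc]
      exact hm j

/-- coordinates of the elements of a step of the filtration -/
theorem coord {V : Type} [AddCommGroup V] [Module F V] [FiniteDimensional F V] {n s : ℕ}
    (hs : s ≤ n) (v : Fin n → V) (hv : LinearIndependent F v) (W : Submodule F V)
    (hW : Module.finrank F W = s) (hm : ∀ i, i.val < s → v i ∈ W) (c : Fin n → F)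
    (hc : ∑ i, c i • v i ∈ W) : ∀ i, s ≤ i.val → c i = 0 := by
  have hv' : LinearIndependent F (v ∘ Fin.castLE hs) := hv.comp _ (Fin.castLE_injective hs)
  have hspan : Submodule.span F (Set.range (v ∘ Fin.castLE hs)) = W := by
    apply Submodule.eq_of_le_of_finrank_eq
    · rw [Submodule.span_le]
      rintro _ ⟨j, rfl⟩
      exact hm _ j.2
    · rw [finrank_span_eq_card hv', Fintype.card_fin, hW]
  rw [← hspan, Submodule.mem_span_range_iff_exists_fun] at hc
  obtain ⟨d, hd⟩ := hc
  set e : Fin n → F := fun i => if h : i.val < s then d ⟨i.val, h⟩ else 0 with he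
  have h1 : ∑ i, e i • v i = ∑ j, d j • v (Fin.castLE hs j) := by
    have h2 : ∑ j, d j • v (Fin.castLE hs j) = ∑ j, e (Fin.castLE hs j) • v (Fin.castLE hs j) := by
      refine sum_congr rfl fun j _ => ?_
      have : e (Fin.castLE hs j) = d j := by
        rw [he]
        show (if h : j.val < s then d ⟨j.val, h⟩ else 0) = d j
        rw [dif_pos j.2]
      rw [this]
    have h4 : ∑ j, e (Fin.castLE hs j) • v (Fin.castLE hs j) =
        ∑ i ∈ univ.map (Fin.castLEEmb hs), e i • v i := by
      rw [Finset.sum_map]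
      rfl
    rw [h2, h4]
    symm
    apply Finset.sum_subset (Finset.subset_univ _)
    intro i _ hi
    have h3 : ¬ i.val < s := by
      intro h3
      apply hi
      rw [Finset.mem_map]
      exact ⟨⟨i.val, h3⟩, mem_univ _, by ext; rfl⟩
    have : e i = 0 := by
      rw [he]
      exact dif_neg h3
    rw [this, zero_smul]
  have h2 : ∑ i, (c i - e i) • v i = 0 := by
    simp only [sub_smul, sum_sub_distrib]
    rw [h1, ← hd]
    simp
  have h3 := Fintype.linearIndependent_iff.1 hv _ h2
  intro i hi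
  have h4 := h3 i
  have h5 : e i = 0 := by
    rw [he]
    exact dif_neg (by omega)
  rw [h5, sub_zero] at h4
  exact h4

/-- the root with coordinates `c` -/
noncomputable def rt {n : ℕ} (X : Fin n → L) (c : Fin n → F) : L := ∑ i, cst k F L (c i) * X i

theorem rt_add {n : ℕ} (X : Fin n → L) (c d : Fin n → F) :
    rt (k := k) X (c + d) = rt (k := k) X c + rt (k := k) X d := by
  unfold rt cst
  rw [← sum_add_distrib]
  refine sum_congr rfl fun i _ => ?_
  rw [Pi.add_apply, map_add, map_add, add_mul]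

theorem rt_smul {n : ℕ} (X : Fin n → L) (a : F) (c : Fin n → F) :
    rt (k := k) X (a • c) = cst k F L a * rt (k := k) X c := by
  unfold rt cst
  rw [mul_sum]
  refine sum_congr rfl fun i _ => ?_
  rw [Pi.smul_apply, smul_eq_mul, map_mul, map_mul, mul_assoc]

theorem rt_basis {n : ℕ} (X : Fin n → L) (v : Fin n → Fin n → F) (c : Fin n → F) :
    ∑ i, cst k F L (c i) * (∑ j, cst k F L (v i j) * X j) =
      rt (k := k) X (∑ i, c i • v i) := by
  unfold rt cst
  simp only [Finset.sum_apply, Pi.smul_apply, smul_eq_mul, map_sum, map_mul, mul_sum, sum_mul]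
  rw [sum_comm]
  refine sum_congr rfl fun j _ => sum_congr rfl fun i _ => ?_
  ring

/-- the subspace of the roots of order `≥ s` -/
def W (P : Place k L) {n : ℕ} (X : Fin n → L) (s : ℤ) : Submodule F (Fin n → F) where
  carrier := {c | P.Ge (rt (k := k) X c) s}
  add_mem' := by
    intro c d hc hd
    show P.Ge _ _
    rw [rt_add]
    exact P.ge_add hc hd
  zero_mem' := by
    show P.Ge _ _
    left
    unfold rt cst
    simp
  smul_mem' := by
    intro a c hc
    show P.Ge _ _
    rw [rt_smul]
    exact ge_cmul P _ hc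

theorem mem_W (P : Place k L) {n : ℕ} (X : Fin n → L) (s : ℤ) (c : Fin n → F) :
    c ∈ W (F := F) P X s ↔ P.Ge (rt (k := k) X c) s := Iff.rfl

theorem cst_pow {q : ℕ} (hq2 : 2 ≤ q) (hF : Nat.card F = q) (a : F) (j : ℕ) :
    cst k F L a ^ q ^ j = cst k F L a := by
  have : Finite F := Nat.finite_of_card_ne_zero (by omega)
  have : Fintype F := Fintype.ofFinite F
  have hcard : Fintype.card F = q := by rw [← Nat.card_eq_fintype_card, hF]
  have hfro : cst k F L a ^ q = cst k F L a := by
    show (algebraMap k L (algebraMap F k a)) ^ q = algebraMap k L (algebraMap F k a)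
    rw [← map_pow, ← map_pow, ← hcard, FiniteField.pow_card]
  induction j with
  | zero => rw [pow_zero, pow_one]
  | succ j ih => rw [pow_succ, pow_mul, ih, hfro]

theorem rt_pow {p f q r m : ℕ} {ν : k} (h : Dat k L p f q r m ν) (hF : Nat.card F = q) {n : ℕ}
    (X : Fin n → L) (c : Fin n → F) (j : ℕ) :
    rt (k := k) X c ^ q ^ j = ∑ i, cst k F L (c i) * X i ^ q ^ j := by
  have := h.ch
  have : Fact p.Prime := ⟨h.hp⟩
  have e : q ^ j = p ^ (f * j) := by rw [h.hq, pow_mul]
  unfold rt
  have h1 := sum_pow_char_pow p (f * j) (s := (univ : Finset (Fin n)))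
    (f := fun i => cst k F L (c i) * X i)
  rw [← e] at h1
  rw [h1]
  refine sum_congr rfl fun i _ => ?_
  rw [mul_pow, cst_pow h.hq2 hF]

theorem rt_rel {p f q r m : ℕ} {ν κ : k} (h : Dat k L p f q r m ν) (hν : ν ^ q = κ)
    (hF : Nat.card F = q) (t : L) (X : Fin (r + m + 1) → L)
    (hrel : ∀ i, X i ^ q ^ (r + m + 1) + t * X i ^ q ^ (r + 1) + algebraMap k L κ * t * X i ^ q +
      X i = 0) (c : Fin (r + m + 1) → F) :
    rt (k := k) X c ^ q ^ (r + m + 1) + t * N q r ν (rt (k := k) X c) ^ q +
      rt (k := k) X c = 0 := by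
  have h1 : N q r ν (rt (k := k) X c) ^ q =
      rt (k := k) X c ^ q ^ (r + 1) + algebraMap k L κ * rt (k := k) X c ^ q := by
    unfold N
    have h2 := h.frob 1 (rt (k := k) X c ^ q ^ r) (algebraMap k L ν * rt (k := k) X c)
    rw [pow_one] at h2
    rw [h2, mul_pow, ← map_pow, hν, ← pow_mul, ← pow_succ]
  have h2 : rt (k := k) X c ^ q = ∑ i, cst k F L (c i) * X i ^ q := by
    have := rt_pow h hF X c 1
    simpa only [pow_one] using this
  rw [h1, rt_pow h hF, rt_pow h hF, h2]
  unfold rt
  rw [mul_sum, ← sum_add_distrib, mul_sum, ← sum_add_distrib, ← sum_add_distrib]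
  refine sum_eq_zero fun i _ => ?_
  linear_combination (cst k F L (c i)) * hrel i

end linear

end N41

open N41 in
theorem n41_thm (hFN1 : S_FN1) (hFN2 : S_FN2) (hEXI : S_EXI) : S_N41 := by
  classical
  intro p k F _ _ _ _ f q r m κ hp hch hf hq hF hm hκ hκ1
  have hq2 : 2 ≤ q := by
    rw [hq]
    calc 2 ≤ p := hp.two_le
      _ = p ^ 1 := (pow_one p).symm
      _ ≤ p ^ f := Nat.pow_le_pow_right hp.pos hf
  obtain ⟨L, _, _, t, X, G₀, ρ, hR, hC⟩ := hFN1 p k F f q r m κ hp hch hf hq hF hm
  have : Finite F := Nat.finite_of_card_ne_zero (by omega)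
  have : Finite (Matrix.SpecialLinearGroup (Fin (r + m + 1)) F) :=
    inferInstanceAs (Finite {A : Matrix (Fin (r + m + 1)) (Fin (r + m + 1)) F // A.det = 1})
  have : Finite G₀ := inferInstance
  obtain ⟨hfin, hsep⟩ := TWI.fin_sep ρ t hC.cov
  obtain ⟨P, hP⟩ := hEXI k L t hC.cov.trans hfin hsep
  have ht0 : t ≠ 0 := by
    intro h
    apply hR.tr
    rw [h]
    exact isAlgebraic_zero
  have : Fact p.Prime := ⟨hp⟩
  have hchL : CharP L p := charP_of_injective_algebraMap (algebraMap k L).injective p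
  obtain ⟨ν, hν⟩ : ∃ ν : k, ν ^ q = κ := IsAlgClosed.exists_pow_nat_eq κ (by omega)
  have hν0 : ν ≠ 0 := by
    intro h
    rw [h, zero_pow (by omega)] at hν
    exact hκ hν.symm
  have hν1 : r = 0 → 1 + ν ≠ 0 := by
    intro hr h0
    apply hκ1 hr
    have h1 : (1 + ν) ^ q = 1 + κ := by
      rw [← hν, hq, add_pow_expChar_pow, one_pow]
    rw [h0, zero_pow (by omega)] at h1
    linear_combination -h1
  have hD : Dat k L p f q r m ν := ⟨hp, hchL, hch, hq, hq2, hm, hν0, hν1⟩
  have hrel := rt_rel (F := F) hD hν hF t X hR.rel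
  have hinj : ∀ c : Fin (r + m + 1) → F, rt (k := k) X c = 0 → c = 0 := fun c h => hR.ind c h
  have hpos : (0 : ℤ) < (q : ℤ) ^ (r + m + 1) - (q : ℤ) ^ (r + 1) := by
    have : (q : ℤ) ^ (r + 1) < (q : ℤ) ^ (r + m + 1) :=
      pow_lt_pow_right₀ (by exact_mod_cast hq2) (by omega)
    linarith
  have hneg : ∀ c : Fin (r + m + 1) → F, rt (k := k) X c ≠ 0 → P.ord (rt (k := k) X c) < 0 →
      ((q : ℤ) ^ (r + m + 1) - (q : ℤ) ^ (r + 1)) * P.ord (rt (k := k) X c) = P.ord t :=
    fun c hc ho => (hD.ord_root P ht0 hP hc (hrel c)).1 ho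
  have hposr : ∀ c : Fin (r + m + 1) → F, rt (k := k) X c ≠ 0 → 0 < P.ord (rt (k := k) X c) →
      ((q : ℤ) - 1) * P.ord (rt (k := k) X c) = -P.ord t :=
    fun c hc ho => (hD.ord_root P ht0 hP hc (hrel c)).2 ho
  have hq1 : (0 : ℤ) < (q : ℤ) - 1 := by
    have : (2 : ℤ) ≤ q := by exact_mod_cast hq2
    linarith
  -- the dimensions
  have hA : Module.finrank F (Fin (r + m + 1) → F) ≤
      Module.finrank F (W (F := F) P X 0) + m := by
    by_cases hall : ∀ c, c ∈ W (F := F) P X 0
    · have h1 : W (F := F) P X 0 = ⊤ := Submodule.eq_top_iff'.2 hall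
      rw [h1, finrank_top]
      omega
    · push Not at hall
      obtain ⟨c₁, hc₁⟩ := hall
      obtain ⟨hy0, hyo⟩ := P.not_ge.1 (fun h => hc₁ ((mem_W P X 0 c₁).2 h))
      obtain ⟨S, hS, hSm⟩ := rootset (q ^ m) (Nat.one_le_pow _ _ (by omega)) (-1 : k) (by
        intro h
        exfalso
        have : 2 ≤ q ^ m := hq2.trans (Nat.le_self_pow (by omega) q)
        omega)
      have h1 := fil P hq2 hF ⊤ (W (F := F) P X 0)
        (fun c => rt (k := k) X c / rt (k := k) X c₁)
        (fun c d => by rw [rt_add, add_div]) (fun a c => by rw [rt_smul, mul_div_assoc])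
        (by
          intro c _
          by_cases hc : rt (k := k) X c = 0
          · left
            show rt (k := k) X c / _ = 0
            rw [hc, zero_div]
          · right
            show 0 ≤ P.ord (rt (k := k) X c / rt (k := k) X c₁)
            rw [P.ord_div hc hy0]
            rcases lt_or_ge (P.ord (rt (k := k) X c)) 0 with h2 | h2
            · have h3 := mul_left_cancel₀ hpos.ne' ((hneg c hc h2).trans (hneg c₁ hy0 hyo).symm)
              omega
            · omega)
        (by
          intro c _ h1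
          show P.Ge _ _
          by_cases hc : rt (k := k) X c = 0
          · exact Or.inl hc
          · right
            have h4 : 1 ≤ P.ord (rt (k := k) X c / rt (k := k) X c₁) :=
              h1.resolve_left (div_ne_zero hc hy0)
            rw [P.ord_div hc hy0] at h4
            by_contra h2
            rw [not_le] at h2
            have h3 := mul_left_cancel₀ hpos.ne' ((hneg c hc h2).trans (hneg c₁ hy0 hyo).symm)
            omega)
        S m hS
        (fun c _ a ha => hSm a (hD.res_top P ht0 hP (hrel c) (hrel c₁) hy0 hyo a ha))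
      rwa [finrank_top] at h1
  have hB : Module.finrank F (W (F := F) P X 0) ≤ Module.finrank F (W (F := F) P X 1) + r := by
    obtain ⟨S, hS, hSm⟩ := rootset (q ^ r) (Nat.one_le_pow _ _ (by omega)) ν (by
      intro h
      apply hν1
      by_contra hr
      have : 2 ≤ q ^ r := hq2.trans (Nat.le_self_pow hr q)
      omega)
    exact fil P hq2 hF (W (F := F) P X 0) (W (F := F) P X 1) (fun c => rt (k := k) X c)
      (fun c d => rt_add X c d) (fun a c => rt_smul X a c) (fun c hc => hc) (fun c _ h => h) S r hS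
      (fun c hc a ha => hSm a (hD.res_mid P ht0 hP (hrel c) hc a ha))
  have hCC : Module.finrank F (W (F := F) P X 1) ≤ 1 := by
    by_cases hall : ∀ c ∈ W (F := F) P X 1, c = 0
    · have h1 : W (F := F) P X 1 = ⊥ := (Submodule.eq_bot_iff _).2 hall
      rw [h1, finrank_bot]
      omega
    · push Not at hall
      obtain ⟨c₁, hc₁, hc0⟩ := hall
      have hy0 : rt (k := k) X c₁ ≠ 0 := fun h => hc0 (hinj _ h)
      have hyo : 0 < P.ord (rt (k := k) X c₁) := by
        have : 1 ≤ P.ord (rt (k := k) X c₁) := ((mem_W P X 1 c₁).1 hc₁).resolve_left hy0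
        omega
      obtain ⟨S, hS, hSm⟩ := rootset (q ^ 1) (Nat.one_le_pow _ _ (by omega)) (-1 : k) (by
        intro h
        exfalso
        rw [pow_one] at h
        omega)
      have h1 := fil P hq2 hF (W (F := F) P X 1) ⊥
        (fun c => rt (k := k) X c / rt (k := k) X c₁)
        (fun c d => by rw [rt_add, add_div]) (fun a c => by rw [rt_smul, mul_div_assoc])
        (by
          intro c hcm
          by_cases hc : rt (k := k) X c = 0
          · left
            show rt (k := k) X c / _ = 0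
            rw [hc, zero_div]
          · right
            show 0 ≤ P.ord (rt (k := k) X c / rt (k := k) X c₁)
            rw [P.ord_div hc hy0]
            have h2 : 1 ≤ P.ord (rt (k := k) X c) := ((mem_W P X 1 c).1 hcm).resolve_left hc
            have h3 := mul_left_cancel₀ hq1.ne'
              ((hposr c hc (by omega)).trans (hposr c₁ hy0 hyo).symm)
            omega)
        (by
          intro c hcm h1
          rw [Submodule.mem_bot]
          by_contra hc'
          have hc : rt (k := k) X c ≠ 0 := fun h => hc' (hinj _ h)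
          have h4 : 1 ≤ P.ord (rt (k := k) X c / rt (k := k) X c₁) :=
            h1.resolve_left (div_ne_zero hc hy0)
          rw [P.ord_div hc hy0] at h4
          have h2 : 1 ≤ P.ord (rt (k := k) X c) := ((mem_W P X 1 c).1 hcm).resolve_left hc
          have h3 := mul_left_cancel₀ hq1.ne'
            ((hposr c hc (by omega)).trans (hposr c₁ hy0 hyo).symm)
          omega)
        S 1 hS
        (fun c _ a ha => hSm a (hD.res_bot P ht0 hP (hrel c) (hrel c₁) hy0 hyo a ha))
      rwa [finrank_bot, zero_add] at h1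
  rw [Module.finrank_fin_fun] at hA
  have d0 : Module.finrank F (W (F := F) P X 0) = r + 1 := by omega
  have d1 : Module.finrank F (W (F := F) P X 1) = 1 := by omega
  have h10 : W (F := F) P X 1 ≤ W (F := F) P X 0 := by
    intro c hc
    exact P.ge_mono ((mem_W P X 1 c).1 hc) (by norm_num)
  -- the basis
  obtain ⟨v, hv, hvm⟩ := build (F := F) (V := Fin (r + m + 1) → F) (r + m + 1)
    (fun s => if s = 0 then W (F := F) P X 1 else if s ≤ r then W (F := F) P X 0 else ⊤)
    (by
      intro s hs
      show s < Module.finrank F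
        (if s = 0 then W (F := F) P X 1 else if s ≤ r then W (F := F) P X 0 else ⊤ :
          Submodule F (Fin (r + m + 1) → F))
      by_cases h1 : s = 0
      · rw [if_pos h1, d1, h1]
        exact Nat.zero_lt_one
      · by_cases h2 : s ≤ r
        · rw [if_neg h1, if_pos h2, d0]
          omega
        · rw [if_neg h1, if_neg h2, finrank_top, Module.finrank_fin_fun]
          exact hs) (r + m + 1) le_rfl
  have v0 : v 0 ∈ W (F := F) P X 1 := by
    have h1 := hvm 0
    simpa using h1
  have vr : ∀ i, i.val < r + 1 → v i ∈ W (F := F) P X 0 := by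
    intro i hi
    have h1 := hvm i
    by_cases h0 : i.val = 0
    · rw [if_pos h0] at h1
      exact h10 h1
    · rw [if_neg h0, if_pos (by omega)] at h1
      exact h1
  have v1 : ∀ i : Fin (r + m + 1), i.val < 1 → v i ∈ W (F := F) P X 1 := by
    intro i hi
    have h0 : i = 0 := by
      apply Fin.ext
      show i.val = 0
      omega
    rw [h0]
    exact v0
  have hdet : (Matrix.of v).transpose.det ≠ 0 := by
    rw [Matrix.det_transpose]
    have h1 : IsUnit (Matrix.of v) := Matrix.linearIndependent_rows_iff_isUnit.1 hv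
    exact ((Matrix.isUnit_iff_isUnit_det _).1 h1).ne_zero
  obtain ⟨G₁, ρ₁, hR₁, hC₁⟩ := hFN2 p k F L f q r m κ t X G₀ ρ (Matrix.of v).transpose hp hch hf hq
    hF hR hC hdet
  have hbas : ∀ c : Fin (r + m + 1) → F,
      ∑ i, cst k F L (c i) * (∑ j, cst k F L ((Matrix.of v).transpose j i) * X j) =
        rt (k := k) X (∑ i, c i • v i) := fun c => rt_basis X v c
  refine ⟨L, inferInstance, inferInstance, t,
    fun i => ∑ j, cst k F L ((Matrix.of v).transpose j i) * X j, G₁, ρ₁, P, hR₁, hC₁, hP, ?_, ?_, ?_⟩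
  · have e : (∑ j, cst k F L ((Matrix.of v).transpose j 0) * X j) = rt (k := k) X (v 0) := rfl
    show ((q : ℤ) - 1) * P.ord (∑ j, cst k F L ((Matrix.of v).transpose j 0) * X j) = -P.ord t
    rw [e]
    have hne : rt (k := k) X (v 0) ≠ 0 := fun h => hv.ne_zero 0 (hinj _ h)
    refine hposr _ hne ?_
    have : 1 ≤ P.ord (rt (k := k) X (v 0)) := ((mem_W P X 1 _).1 v0).resolve_left hne
    omega
  · rintro c hc0 ⟨i, hi, hci⟩
    show P.ord (∑ i, cst k F L (c i) * (∑ j, cst k F L ((Matrix.of v).transpose j i) * X j)) = 0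
    rw [hbas c]
    have h1 : ∑ i, c i • v i ∈ W (F := F) P X 0 := by
      refine Submodule.sum_mem _ fun j _ => ?_
      rcases lt_or_ge j.val (r + 1) with h | h
      · exact Submodule.smul_mem _ _ (vr j h)
      · rw [hc0 j (by omega), zero_smul]
        exact Submodule.zero_mem _
    have h2 : ¬ ∑ i, c i • v i ∈ W (F := F) P X 1 := by
      intro h2
      refine hci (coord (s := 1) (by omega) v hv _ d1 v1 c h2 i ?_)
      by_contra h3
      apply hi
      apply Fin.ext
      show i.val = 0
      omega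
    obtain ⟨h3, h4⟩ := P.not_ge.1 (fun h => h2 ((mem_W P X 1 _).2 h))
    have h5 := ((mem_W P X 0 _).1 h1).resolve_left h3
    omega
  · rintro c ⟨i, hi, hci⟩
    show ((q : ℤ) ^ (r + m + 1) - (q : ℤ) ^ (r + 1)) *
      P.ord (∑ i, cst k F L (c i) * (∑ j, cst k F L ((Matrix.of v).transpose j i) * X j)) = P.ord t
    rw [hbas c]
    have h2 : ¬ ∑ i, c i • v i ∈ W (F := F) P X 0 := by
      intro h2
      exact hci (coord (s := r + 1) (by omega) v hv _ d0 vr c h2 i (by omega))
    obtain ⟨h3, h4⟩ := P.not_ge.1 (fun h => h2 ((mem_W P X 0 _).2 h))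
    exact hneg _ h3 h4

end Pool.CND
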