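import Pool.Agent.H37.CTN.Stmts
import Pool.Agent.H17.CND.LON
import Pool.Agent.H17.CND.ZPW
import Pool.Agent.H88.CND.EXP

/-!
# Row N42 of the board `ctn`: the shape of the elements of the wild inertia group
-/

set_option autoImplicit false

namespace Pool.CND

open Finset Polynomial

theorem n42_thm (_hWLD : S_WLD) : S_N42 := by
  intro p k F L _ _ _ _ _ _ f q r m κ t X G₀ ρ P hp hchar hf hq hF hm hR hC hO w hw
  have hq2 : 2 ≤ q := by
    rw [hq]
    calc 2 ≤ p := hp.two_le
      _ = p ^ 1 := (pow_one p).symm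
      _ ≤ p ^ f := Nat.pow_le_pow_right hp.pos hf
  have hqz : (2 : ℤ) ≤ (q : ℤ) := by exact_mod_cast hq2
  have hXne : ∀ i, X i ≠ 0 := by
    intro i h
    have h1 := hR.ind (fun j => if j = i then 1 else 0) (by
      rw [Finset.sum_eq_single i]
      · rw [h, mul_zero]
      · intro j _ hj
        simp [cst, hj]
      · intro h2
        exact absurd (mem_univ i) h2)
    have h2 := congrFun h1 i
    simp at h2
  -- strict increase
  have hbig : ∀ x : L, x ≠ 0 → P.Ge (ρ w x - x) (P.ord x + 1) := by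
    intro x hx
    obtain ⟨hfix, hram⟩ := hw
    have h3 : P.Ge (ρ w P.pi - P.pi) ((1 : ℤ) + 1) := by
      rcases hram P.pi P.pi_ne P.ord_pi with h | h
      · exact Or.inl (sub_eq_zero.2 h)
      · right
        simpa using h
    rcases lon_thm exp_thm zpw_thm k L P (ρ w) P.pi 1 hfix P.pi_ne P.ord_pi (by norm_num) h3 x
      with h | h
    · exact h
    · exact absurd h hx
  -- the difference
  have hdiff : ∀ i, ρ w (X i) - X i =
      ∑ j, cst k F L (w.1.1 j i - if j = i then 1 else 0) * X j := by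
    intro i
    rw [hC.act w i]
    have h1 : ∀ j, cst k F L (w.1.1 j i - if j = i then 1 else 0) * X j =
        cst k F L (w.1.1 j i) * X j - (if j = i then X j else 0) := by
      intro j
      split_ifs <;> simp [cst] <;> ring
    rw [sum_congr rfl fun j _ => h1 j, sum_sub_distrib, sum_ite_eq' univ i X]
    simp
  -- orders
  have hD : (0 : ℤ) < (q : ℤ) ^ (r + m + 1) - (q : ℤ) ^ (r + 1) := by
    have : (q : ℤ) ^ (r + 1) < (q : ℤ) ^ (r + m + 1) :=
      pow_lt_pow_right₀ (by linarith) (by omega)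
    linarith
  have hX0 : 0 < P.ord (X 0) := by
    by_contra hcon
    rw [not_lt] at hcon
    have h1 : ((q : ℤ) - 1) * P.ord (X 0) ≤ 0 :=
      mul_nonpos_of_nonneg_of_nonpos (by linarith) hcon
    have := hO.small
    have := hO.neg
    linarith
  have hsingle : ∀ i : Fin (r + m + 1),
      (∑ j, cst k F L ((fun j => if j = i then (1 : F) else 0) j) * X j) = X i := by
    intro i
    rw [Finset.sum_eq_single i]
    · simp [cst]
    · intro j _ hj
      simp [cst, hj]
    · intro h2
      exact absurd (mem_univ i) h2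
  have hmid : ∀ i : Fin (r + m + 1), i ≠ 0 → i.val ≤ r → P.ord (X i) = 0 := by
    intro i hi hir
    have h1 := hO.mid (fun j => if j = i then 1 else 0)
      (fun j hj => if_neg (by rintro rfl; omega)) ⟨i, hi, by simp⟩
    rwa [hsingle i] at h1
  have htop : ∀ i : Fin (r + m + 1), r < i.val →
      ((q : ℤ) ^ (r + m + 1) - (q : ℤ) ^ (r + 1)) * P.ord (X i) = P.ord t := by
    intro i hi
    have h1 := hO.top (fun j => if j = i then 1 else 0) ⟨i, hi, by simp⟩
    rwa [hsingle i] at h1
  have hlow : ∀ j, P.ord t ≤ ((q : ℤ) ^ (r + m + 1) - (q : ℤ) ^ (r + 1)) * P.ord (X j) := by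
    intro j
    rcases lt_or_ge r j.val with h | h
    · rw [htop j h]
    · have h1 : 0 ≤ P.ord (X j) := by
        by_cases hj : j = 0
        · rw [hj]
          exact hX0.le
        · rw [hmid j hj h]
      have := mul_nonneg hD.le h1
      have := hO.neg
      linarith
  -- rows below
  have hc : ∀ i j, r < i.val → w.1.1 i j = if i = j then 1 else 0 := by
    intro i j hi
    by_contra hne
    have hne' : w.1.1 i j - (if i = j then 1 else 0) ≠ 0 := sub_ne_zero.2 hne
    have h1 := hO.top (fun l => w.1.1 l j - if l = j then 1 else 0) ⟨i, hi, hne'⟩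
    have h2 := hbig (X j) (hXne j)
    rw [hdiff j] at h2
    rcases h2 with h2 | h2
    · exact hne' (congrFun (hR.ind (fun l => w.1.1 l j - if l = j then 1 else 0) h2) i)
    · have h3 := hlow j
      have h4 : ((q : ℤ) ^ (r + m + 1) - (q : ℤ) ^ (r + 1)) * (P.ord (X j) + 1) ≤
          ((q : ℤ) ^ (r + m + 1) - (q : ℤ) ^ (r + 1)) *
            P.ord (∑ l, cst k F L (w.1.1 l j - if l = j then 1 else 0) * X l) :=
        mul_le_mul_of_nonneg_left h2 hD.le
      have h5 : ((q : ℤ) ^ (r + m + 1) - (q : ℤ) ^ (r + 1)) *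
            P.ord (∑ l, cst k F L (w.1.1 l j - if l = j then 1 else 0) * X l) = P.ord t := h1
      rw [h5] at h4
      linarith
  have hb : ∀ i j, j.val ≤ r → i ≠ 0 → w.1.1 i j = if i = j then 1 else 0 := by
    intro i j hj hi
    rcases lt_or_ge r i.val with hir | hir
    · exact hc i j hir
    by_contra hne
    have hne' : w.1.1 i j - (if i = j then 1 else 0) ≠ 0 := sub_ne_zero.2 hne
    have h1 := hO.mid (fun l => w.1.1 l j - if l = j then 1 else 0)
      (fun l hl => by rw [hc l j hl, sub_self]) ⟨i, hi, hne'⟩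
    have h2 := hbig (X j) (hXne j)
    rw [hdiff j] at h2
    rcases h2 with h2 | h2
    · exact hne' (congrFun (hR.ind (fun l => w.1.1 l j - if l = j then 1 else 0) h2) i)
    · have h3 : 0 ≤ P.ord (X j) := by
        by_cases hj0 : j = 0
        · rw [hj0]
          exact hX0.le
        · rw [hmid j hj0 hj]
      have h4 : P.ord (∑ l, cst k F L (w.1.1 l j - if l = j then 1 else 0) * X l) = 0 := h1
      rw [h4] at h2
      linarith
  refine ⟨?_, hb, hc⟩
  by_contra hne
  have hne' : w.1.1 0 0 - 1 ≠ 0 := sub_ne_zero.2 hne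
  have h2 := hbig (X 0) (hXne 0)
  have h3 : (∑ l, cst k F L (w.1.1 l 0 - if l = 0 then 1 else 0) * X l) =
      cst k F L (w.1.1 0 0 - 1) * X 0 := by
    rw [Finset.sum_eq_single 0]
    · simp
    · intro l _ hl
      rw [hb l 0 (by simp) hl, sub_self]
      simp [cst]
    · intro h
      exact absurd (mem_univ _) h
  rw [hdiff 0, h3] at h2
  have hk : algebraMap F k (w.1.1 0 0 - 1) ≠ 0 := by
    rw [Ne, map_eq_zero]
    exact hne'
  have hL : cst k F L (w.1.1 0 0 - 1) ≠ 0 := by
    show algebraMap k L (algebraMap F k (w.1.1 0 0 - 1)) ≠ 0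
    rw [Ne, map_eq_zero]
    exact hk
  rcases h2 with h2 | h2
  · rcases mul_eq_zero.1 h2 with h4 | h4
    · exact hL h4
    · exact hXne 0 h4
  · rw [P.ord_mul _ _ hL (hXne 0), show P.ord (cst k F L (w.1.1 0 0 - 1)) = 0 from
      P.ord_const _ hk] at h2
    linarith

end Pool.CND
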